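import Pool.Agent.H77.KG.Targets

/-!
# Board kgr_modules, rows GTA, GTM, GTS
-/

set_option autoImplicit false

open Set Pool.Agent.H77.BC Pool.Agent.H77.BD Pool.Agent.H77.KG

namespace Pool.Agent.H8.KGR

section

variable {M : Type} (U : RU M)

private theorem rk_pow (hP : T_PWR) {S : Type} [Cod M S] [Ful U S] (μ : ℕ) (s : Fin μ → S) :
    U.R (univ : Set (Fin μ → S)) = μ * U.R (univ : Set S) := by
  have h := (hP U (S := S) μ (fun _ => univ) (fun _ => Ful.full)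
    (fun i => ⟨s i, mem_univ _⟩)).2
  have h1 : {x : Fin μ → S | ∀ i, x i ∈ (univ : Set S)} = univ := by
    ext x; simp
  rw [h1] at h
  rw [h]
  simp

variable {G S : Type} [Group G] [MulAction G S] [Cod M G] [Cod M S] [DG U G] [Ful U S] [DA U G S]

private theorem D_good {μ : ℕ} (s : Fin μ → S) :
    U.D {x : Fin μ → S | ∃ g : G, ∀ i, x i = g • s i} := by
  have h := D_not (D_bad (U := U) (G := G) s)
  have h2 : {x : Fin μ → S | ¬ ¬ ∃ g : G, ∀ i, x i = g • s i} =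
      {x : Fin μ → S | ∃ g : G, ∀ i, x i = g • s i} := by
    ext x; simp only [mem_ofPred_eq, not_not]
  rw [h2] at h
  exact h

private theorem rk_good {μ : ℕ} (s : Fin μ → S)
    (hs : {x : Fin μ → S | ¬ ∃ g : G, ∀ i, x i = g • s i}.Nonempty →
      U.R {x : Fin μ → S | ¬ ∃ g : G, ∀ i, x i = g • s i} < U.R (univ : Set (Fin μ → S))) :
    U.R {x : Fin μ → S | ∃ g : G, ∀ i, x i = g • s i} = U.R (univ : Set (Fin μ → S)) := by
  have hO := D_good U (G := G) s
  have hB := D_bad (U := U) (G := G) s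
  have hne : {x : Fin μ → S | ∃ g : G, ∀ i, x i = g • s i}.Nonempty :=
    ⟨s, 1, fun i => (one_smul G (s i)).symm⟩
  have hun : {x : Fin μ → S | ∃ g : G, ∀ i, x i = g • s i} ∪
      {x : Fin μ → S | ¬ ∃ g : G, ∀ i, x i = g • s i} = univ := by
    ext x
    simp only [mem_union, mem_ofPred_eq, mem_univ, iff_true]
    exact em _
  by_cases hb : {x : Fin μ → S | ¬ ∃ g : G, ∀ i, x i = g • s i}.Nonempty
  · have h1 := (Pool.Agent.H77.BCP.a_RKA U).union hO hB hne hb
    rw [hun] at h1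
    have h2 := hs hb
    rcases max_choice (U.R {x : Fin μ → S | ∃ g : G, ∀ i, x i = g • s i})
      (U.R {x : Fin μ → S | ¬ ∃ g : G, ∀ i, x i = g • s i}) with h3 | h3
    · rw [h1, h3]
    · rw [h3] at h1; omega
  · rw [not_nonempty_iff_eq_empty] at hb
    rw [hb, union_empty] at hun
    rw [hun]

end

theorem pf_GTA (hPWR : T_PWR) : T_GTA := by
  intro M U G S _ _ _ _ _ _ _ μ hGT
  obtain ⟨s, hs⟩ := hGT
  have h1 := rk_good U (G := G) s hs
  rw [rk_pow U hPWR μ s] at h1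
  have hf : DFn U (fun (g : G) (i : Fin μ) => g • s i) :=
    DFn_vec fun i => DFn_act DFn_id (DFn_const _)
  have h2 := (Pool.Agent.H77.BCP.a_RKB U).fib_ge (X := (univ : Set G))
    (f := fun (g : G) (i : Fin μ) => g • s i) (n := 0) Ful.full hf ⟨1, mem_univ _⟩
    (fun _ _ => Nat.zero_le _)
  have h3 : (fun (g : G) (i : Fin μ) => g • s i) '' univ =
      {x : Fin μ → S | ∃ g : G, ∀ i, x i = g • s i} := by
    ext x
    constructor
    · rintro ⟨g, _, rfl⟩
      exact ⟨g, fun i => rfl⟩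
    · rintro ⟨g, hg⟩
      exact ⟨g, mem_univ _, funext fun i => (hg i).symm⟩
  rw [h3, h1] at h2
  exact h2

private theorem DFn_snoc {M : Type} {U : RU M} {S : Type} [Cod M S] [Ful U S] (μ : ℕ) :
    DFn U (fun (z : (Fin μ → S) × S) => (Fin.snoc z.1 z.2 : Fin (μ + 1) → S)) := by
  refine DFn_vec fun i => ?_
  refine Fin.lastCases ?_ (fun j => ?_) i
  · simp only [Fin.snoc_last]
    exact DFn_snd
  · simp only [Fin.snoc_castSucc]
    exact DFn_comp (g := fun x : Fin μ → S => x j) (DFn_apply j) DFn_fst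

theorem pf_GTM (hPWR : T_PWR) : T_GTM := by
  intro M U G S _ _ _ _ _ _ _ μ hGT
  obtain ⟨s, hs⟩ := hGT
  refine ⟨fun i => s i.castSucc, fun hne => ?_⟩
  have hn1 := rk_pow U hPWR (μ + 1) s
  have hn0 := rk_pow U hPWR μ (fun i => s i.castSucc)
  have hB := D_bad (U := U) (G := G) (fun i : Fin μ => s i.castSucc)
  have hB1 := D_bad (U := U) (G := G) s
  obtain ⟨x0, hx0⟩ := hne
  have hS : (univ : Set S).Nonempty := ⟨s 0, mem_univ _⟩
  have hprod := (Pool.Agent.H77.BCP.a_RKB U).prod hB (Ful.full (U := U) (α := S))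
    ⟨x0, hx0⟩ hS
  have hinj : InjOn (fun (z : (Fin μ → S) × S) => (Fin.snoc z.1 z.2 : Fin (μ + 1) → S))
      ({x : Fin μ → S | ¬ ∃ g : G, ∀ i, x i = g • s i.castSucc} ×ˢ univ) := by
    intro z _ z' _ h
    have h' := Fin.snoc_injective2 h
    exact Prod.ext h'.1 h'.2
  have him := (Pool.Agent.H77.BCP.a_RKB U).inj (D_prod hB (Ful.full (U := U) (α := S)))
    (DFn_snoc (U := U) (S := S) μ) ⟨(x0, s 0), hx0, mem_univ _⟩ hinj
  have hsub : (fun (z : (Fin μ → S) × S) => (Fin.snoc z.1 z.2 : Fin (μ + 1) → S)) ''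
      ({x : Fin μ → S | ¬ ∃ g : G, ∀ i, x i = g • s i.castSucc} ×ˢ univ) ⊆
      {x : Fin (μ + 1) → S | ¬ ∃ g : G, ∀ i, x i = g • s i} := by
    rintro _ ⟨z, hz, rfl⟩ ⟨g, hg⟩
    refine hz.1 ⟨g, fun i => ?_⟩
    have h := hg i.castSucc
    simp only [Fin.snoc_castSucc] at h
    exact h
  have hDim := DFn_image (DFn_snoc (U := U) (S := S) μ)
    (D_prod hB (Ful.full (U := U) (α := S)))
  have hnei : ((fun (z : (Fin μ → S) × S) => (Fin.snoc z.1 z.2 : Fin (μ + 1) → S)) ''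
      ({x : Fin μ → S | ¬ ∃ g : G, ∀ i, x i = g • s i.castSucc} ×ˢ univ)).Nonempty :=
    ⟨_, (x0, s 0), ⟨hx0, mem_univ _⟩, rfl⟩
  have hle := (Pool.Agent.H77.BCP.a_RKA U).mono hDim hB1 hnei hsub
  have hlt := hs (hnei.mono hsub)
  rw [him, hprod] at hle
  rw [hn1] at hlt
  rw [hn0]
  show U.R {x : Fin μ → S | ¬ ∃ g : G, ∀ i, x i = g • s i.castSucc} < _
  have e : (μ + 1) * U.R (univ : Set S) = μ * U.R (univ : Set S) + U.R (univ : Set S) := by ring
  have hle' : U.R {x : Fin μ → S | ¬ ∃ g : G, ∀ i, x i = g • s i.castSucc} +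
      U.R (univ : Set S) ≤ U.R {x : Fin (μ + 1) → S | ¬ ∃ g : G, ∀ i, x i = g • s i} := hle
  rw [e] at hlt
  omega

private theorem DFn_cons {M : Type} {U : RU M} {S : Type} [Cod M S] [Ful U S] (μ : ℕ) :
    DFn U (fun (z : S × (Fin μ → S)) => (Fin.cons z.1 z.2 : Fin (μ + 1) → S)) := by
  refine DFn_vec fun i => ?_
  refine Fin.cases ?_ (fun j => ?_) i
  · simp only [Fin.cons_zero]
    exact DFn_fst
  · simp only [Fin.cons_succ]
    exact DFn_comp (g := fun x : Fin μ → S => x j) (DFn_apply j) DFn_snd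

private theorem cons_inj {S : Type} (μ : ℕ) :
    Function.Injective (fun (z : S × (Fin μ → S)) => (Fin.cons z.1 z.2 : Fin (μ + 1) → S)) := by
  intro z z' h
  have h' := Fin.cons_injective2 h
  exact Prod.ext h'.1 h'.2

/-- translates -/
private theorem rk_smul {M : Type} {U : RU M} {G S : Type} [Group G] [MulAction G S] [Cod M G]
    [Cod M S] [DG U G] [Ful U S] [DA U G S] {μ : ℕ} (g : G) {Y : Set (Fin μ → S)} (hY : U.D Y)
    (hne : Y.Nonempty) :
    U.R {y : Fin μ → S | (fun i => g⁻¹ • y i) ∈ Y} = U.R Y := by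
  have hf : DFn U (fun (y : Fin μ → S) (i : Fin μ) => g • y i) :=
    DFn_vec fun i => DFn_act (DFn_const _) (DFn_apply i)
  have hinj : InjOn (fun (y : Fin μ → S) (i : Fin μ) => g • y i) Y := by
    intro y _ y' _ h
    funext i
    exact smul_left_cancel g (congrFun h i)
  have h := (Pool.Agent.H77.BCP.a_RKB U).inj hY hf hne hinj
  have h2 : (fun (y : Fin μ → S) (i : Fin μ) => g • y i) '' Y =
      {y : Fin μ → S | (fun i => g⁻¹ • y i) ∈ Y} := by
    ext y
    constructor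
    · rintro ⟨y', hy', rfl⟩
      simp only [mem_ofPred_eq, inv_smul_smul]
      exact hy'
    · intro hy
      exact ⟨fun i => g⁻¹ • y i, hy, funext fun i => smul_inv_smul g (y i)⟩
  rw [h2] at h
  exact h

theorem pf_GTS (hPWR : T_PWR) : T_GTS := by
  intro M U G S _ _ _ _ _ _ _ μ hGT
  obtain ⟨s, hs⟩ := hGT
  have RA := Pool.Agent.H77.BCP.a_RKA U
  have RB := Pool.Agent.H77.BCP.a_RKB U
  have hn1 := rk_pow U hPWR (μ + 1) s
  have hn0 := rk_pow U hPWR μ (fun i => s i.succ)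
  have hgood := rk_good U (G := G) s hs
  have hDO := D_good U (G := G) s
  have hDB := D_bad (U := U) (G := G) s
  set n := U.R (univ : Set S) with hn
  -- the orbit, in the product
  set F := (fun (z : S × (Fin μ → S)) => (Fin.cons z.1 z.2 : Fin (μ + 1) → S)) with hF
  have hFd : DFn U F := DFn_cons μ
  have hFi : Function.Injective F := cons_inj μ
  set Z : Set (S × (Fin μ → S)) :=
    {z | ∃ g : G, z.1 = g • s 0 ∧ ∀ i : Fin μ, z.2 i = g • s i.succ} with hZ
  have hZO : ∀ z, z ∈ Z ↔ F z ∈ {x : Fin (μ + 1) → S | ∃ g : G, ∀ i, x i = g • s i} := by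
    intro z
    constructor
    · rintro ⟨g, h1, h2⟩
      refine ⟨g, fun i => ?_⟩
      refine Fin.cases ?_ (fun j => ?_) i
      · exact h1
      · exact h2 j
    · rintro ⟨g, hg⟩
      exact ⟨g, hg 0, fun i => hg i.succ⟩
  have hZpre : Z = F ⁻¹' {x : Fin (μ + 1) → S | ∃ g : G, ∀ i, x i = g • s i} := by
    ext z; exact hZO z
  have hDZ : U.D Z := by
    rw [hZpre]; exact DFn_preim hFd hDO
  have hsurj : ∀ x : Fin (μ + 1) → S, F (x 0, fun i => x i.succ) = x := by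
    intro x
    funext i
    refine Fin.cases ?_ (fun j => ?_) i
    · rfl
    · rfl
  have hZne : Z.Nonempty := ⟨(s 0, fun i => s i.succ), 1, (one_smul G _).symm,
    fun i => (one_smul G _).symm⟩
  have hRZ : U.R Z = (μ + 1) * n := by
    have h := RB.inj hDZ hFd hZne hFi.injOn
    have h2 : F '' Z = {x : Fin (μ + 1) → S | ∃ g : G, ∀ i, x i = g • s i} := by
      ext x
      constructor
      · rintro ⟨z, hz, rfl⟩
        exact (hZO z).1 hz
      · intro hx
        refine ⟨(x 0, fun i => x i.succ), (hZO _).2 ?_, hsurj x⟩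
        rw [hsurj]; exact hx
    rw [h2, hgood, hn1] at h
    exact h.symm
  -- the section
  have hDx : U.D {y : Fin μ → S | (s 0, y) ∈ Z} :=
    D_subst (p := fun z => z ∈ Z) hDZ (DFn_pair (DFn_const (s 0)) DFn_id)
  have hxne : {y : Fin μ → S | (s 0, y) ∈ Z}.Nonempty := hZne.elim fun _ _ =>
    ⟨fun i => s i.succ, 1, (one_smul G _).symm, fun i => (one_smul G _).symm⟩
  have htr : ∀ (g : G) (y : Fin μ → S), (g • s 0, y) ∈ Z ↔ (s 0, fun i => g⁻¹ • y i) ∈ Z := by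
    intro g y
    constructor
    · rintro ⟨g', h1, h2⟩
      refine ⟨g⁻¹ * g', ?_, fun i => ?_⟩
      · show s 0 = (g⁻¹ * g') • s 0
        have h1' : g • s 0 = g' • s 0 := h1
        rw [mul_smul, ← h1', inv_smul_smul]
      · show g⁻¹ • y i = (g⁻¹ * g') • s i.succ
        rw [mul_smul, ← h2 i]
    · rintro ⟨g', h1, h2⟩
      refine ⟨g * g', ?_, fun i => ?_⟩
      · show g • s 0 = (g * g') • s 0
        have h1' : s 0 = g' • s 0 := h1
        rw [mul_smul, ← h1']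
      · show y i = (g * g') • s i.succ
        have h2' : g⁻¹ • y i = g' • s i.succ := h2 i
        rw [mul_smul, ← h2', smul_inv_smul]
  have hpr : {a : S | ∃ b, (a, b) ∈ Z} = MulAction.orbit G (s 0) := by
    ext a
    constructor
    · rintro ⟨b, g, h1, _⟩
      exact ⟨g, h1.symm⟩
    · rintro ⟨g, rfl⟩
      exact ⟨fun i => g • s i.succ, g, rfl, fun i => rfl⟩
  have hsec : ∀ a, (∃ b, (a, b) ∈ Z) → U.R {b | (a, b) ∈ Z} =
      U.R {y : Fin μ → S | (s 0, y) ∈ Z} := by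
    rintro a ⟨b, g, h1, _⟩
    have h1' : a = g • s 0 := h1
    subst h1'
    have h2 := rk_smul (U := U) g hDx hxne
    have h3 : {y : Fin μ → S | (fun i => g⁻¹ • y i) ∈ {y : Fin μ → S | (s 0, y) ∈ Z}} =
        {b | (g • s 0, b) ∈ Z} := by
      ext y; exact (htr g y).symm
    rw [h3] at h2
    exact h2
  have hRZ2 := RB.sec_eq hDZ hZne hsec
  rw [hpr, hRZ] at hRZ2
  have hDorb : U.D (MulAction.orbit G (s 0)) := D_orb (s 0)
  have horb_le : U.R (MulAction.orbit G (s 0)) ≤ n :=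
    RA.mono hDorb Ful.full ⟨s 0, MulAction.mem_orbit_self _⟩ (subset_univ _)
  have hsec_le : U.R {y : Fin μ → S | (s 0, y) ∈ Z} ≤ μ * n := by
    rw [← hn0]
    exact RA.mono hDx Ful.full hxne (subset_univ _)
  have e : (μ + 1) * n = μ * n + n := by ring
  have horb : U.R (MulAction.orbit G (s 0)) = n := by omega
  refine ⟨s 0, horb, fun i => s i.succ, fun hbad => ?_⟩
  have hbeq : {x : Fin μ → S | ¬ ∃ g : MulAction.stabilizer G (s 0), ∀ i, x i = g • s i.succ} =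
      {y : Fin μ → S | (s 0, y) ∈ Z}ᶜ := by
    ext y
    simp only [mem_ofPred_eq, mem_compl_iff]
    refine not_congr ⟨?_, ?_⟩
    · rintro ⟨g, hg⟩
      exact ⟨g.1, g.2.symm, hg⟩
    · rintro ⟨g, h1, h2⟩
      exact ⟨⟨g, h1.symm⟩, h2⟩
  rw [hbeq] at hbad ⊢
  rw [hn0]
  by_contra hcon
  push Not at hcon
  have hDxc : U.D {y : Fin μ → S | (s 0, y) ∈ Z}ᶜ := D_compl hDx
  obtain ⟨y0, hy0⟩ := hbad
  set Z' : Set (S × (Fin μ → S)) := {z | z.1 ∈ MulAction.orbit G (s 0) ∧ z ∉ Z} with hZ'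
  have hDZ' : U.D Z' :=
    D_and (D_subst (p := fun a => a ∈ MulAction.orbit G (s 0)) hDorb DFn_fst) (D_compl hDZ)
  have hZ'ne : Z'.Nonempty := ⟨(s 0, y0), MulAction.mem_orbit_self _, hy0⟩
  have hpr' : {a : S | ∃ b, (a, b) ∈ Z'} = MulAction.orbit G (s 0) := by
    ext a
    constructor
    · rintro ⟨b, h1, _⟩
      exact h1
    · rintro ⟨g, rfl⟩
      refine ⟨fun i => g • y0 i, ⟨g, rfl⟩, fun h => hy0 ?_⟩
      have h' := (htr g _).1 h
      simp only [inv_smul_smul] at h'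
      exact h'
  have hsec' : ∀ a, (∃ b, (a, b) ∈ Z') → U.R {b | (a, b) ∈ Z'} =
      U.R {y : Fin μ → S | (s 0, y) ∈ Z}ᶜ := by
    rintro a ⟨b, ⟨g, hg⟩, _⟩
    have hg' : a = g • s 0 := hg.symm
    subst hg'
    have h2 := rk_smul (U := U) g hDxc ⟨y0, hy0⟩
    have h3 : {y : Fin μ → S | (fun i => g⁻¹ • y i) ∈ {y : Fin μ → S | (s 0, y) ∈ Z}ᶜ} =
        {b | (g • s 0, b) ∈ Z'} := by
      ext y
      constructor
      · intro h
        exact ⟨⟨g, rfl⟩, fun h' => h ((htr g y).1 h')⟩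
      · intro h h'
        exact h.2 ((htr g y).2 h')
    rw [h3] at h2
    exact h2
  have hRZ' := RB.sec_eq hDZ' hZ'ne hsec'
  rw [hpr', horb] at hRZ'
  have hRF := RB.inj hDZ' hFd hZ'ne hFi.injOn
  have hsub : F '' Z' ⊆ {x : Fin (μ + 1) → S | ¬ ∃ g : G, ∀ i, x i = g • s i} := by
    rintro _ ⟨z, hz, rfl⟩ h
    exact hz.2 ((hZO z).2 h)
  have hnei : (F '' Z').Nonempty := hZ'ne.image F
  have h1 := RA.mono (DFn_image hFd hDZ') hDB hnei hsub
  have h2 := hs (hnei.mono hsub)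
  rw [hn1] at h2
  rw [hRF, hRZ'] at h1
  omega

end Pool.Agent.H8.KGR
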