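import Pool.Agent.H77.KG.Targets

/-!
# Board kgr_modules, rows MC1, MC2
-/

set_option autoImplicit false

open Set Pool.Agent.H77.BC Pool.Agent.H77.BD Pool.Agent.H77.KG

namespace Pool.Agent.H8.KGR

/-- the fixed points of `H` -/
private def Zs (H V : Type) [Group H] [AddCommGroup V] [DistribMulAction H V] :
    AddSubgroup V where
  carrier := {y | ∀ h : H, h • y = y}
  zero_mem' := fun h => smul_zero h
  add_mem' := fun {a b} ha hb h => by rw [smul_add, ha h, hb h]
  neg_mem' := fun {a} ha h => by rw [smul_neg, ha h]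

private theorem orbits (hMNC : T_MNC) (hADT : T_ADT) (hORB : T_ORB) {M : Type} (U : RU M)
    {H V : Type} [Group H] [AddCommGroup V] [DistribMulAction H V] [Cod M H] [Cod M V] [DG U H]
    [DAb U V] [DA U H V] (hmin : Mn U (⊤ : Subgroup H) (⊤ : AddSubgroup V))
    (hY : ∀ Y : Subgroup H, U.D (Y : Set H) → Y ≠ ⊤ →
      U.R (Y : Set H) + U.R (univ : Set V) ≤ U.R (univ : Set H))
    (hne : ∃ (h : H) (v : V), h • v ≠ v) :
    (Zs H V : Set V).Finite ∧
    (∀ y, y ∉ Zs H V → U.R ((MulAction.stabilizer H y : Subgroup H) : Set H) +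
      U.R (univ : Set V) = U.R (univ : Set H)) ∧
    ∀ x y, x ∉ Zs H V → y ∉ Zs H V → ∃ h : H, y = h • x := by
  have RA := Pool.Agent.H77.BCP.a_RKA U
  have hZD : U.D (Zs H V : Set V) :=
    D_forall (p := fun (y : V) (h : H) => h • y = y)
      (D_eqf (DFn_act DFn_snd DFn_fst) DFn_fst)
  have hZT : Zs H V ≠ ⊤ := by
    obtain ⟨h, v, hv⟩ := hne
    intro he
    have : v ∈ Zs H V := by rw [he]; trivial
    exact hv (this h)
  have hZf : (Zs H V : Set V).Finite := by
    refine hmin.2.2.2 (Zs H V) le_top hZD ?_ hZT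
    intro t _ v hv
    rw [hv t]
    exact hv
  have horb : ∀ y, y ∉ Zs H V → U.R (univ : Set V) ≤ U.R (MulAction.orbit H y) ∧
      U.R ((MulAction.stabilizer H y : Subgroup H) : Set H) + U.R (univ : Set V) =
        U.R (univ : Set H) := by
    intro y hy
    have hsT : MulAction.stabilizer H y ≠ ⊤ := by
      intro he
      refine hy fun h => ?_
      have h1 : h ∈ MulAction.stabilizer H y := by rw [he]; trivial
      exact h1
    have h1 := hY _ (D_stab (U := U) y) hsT
    have h2 := hORB U (G := H) (S := V) ⊤ y (by rw [Subgroup.coe_top]; exact Ful.full)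
    rw [top_inf_eq, Subgroup.coe_top] at h2
    have h3 : {x : V | ∃ g ∈ (⊤ : Subgroup H), x = g • y} = MulAction.orbit H y := by
      ext x
      constructor
      · rintro ⟨g, _, rfl⟩
        exact ⟨g, rfl⟩
      · rintro ⟨g, rfl⟩
        exact ⟨g, trivial, rfl⟩
    rw [h3] at h2
    have h4 : U.R (MulAction.orbit H y) ≤ U.R (univ : Set V) :=
      RA.mono (D_orb (U := U) (G := H) y) Ful.full ⟨y, MulAction.mem_orbit_self _⟩
        (subset_univ _)
    omega
  refine ⟨hZf, fun y hy => (horb y hy).2, fun x y hx hy => ?_⟩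
  have hc := hMNC U (G := H) ⊤ ⊤ hmin
  have hd := (hADT U V).deg ⊤ hc (MulAction.orbit H x) (MulAction.orbit H y)
    (by rw [AddSubgroup.coe_top]; exact subset_univ _)
    (by rw [AddSubgroup.coe_top]; exact subset_univ _)
    (D_orb (U := U) (G := H) x) (D_orb (U := U) (G := H) y)
    ⟨x, MulAction.mem_orbit_self _⟩ ⟨y, MulAction.mem_orbit_self _⟩
    (by rw [AddSubgroup.coe_top]; exact (horb x hx).1)
    (by rw [AddSubgroup.coe_top]; exact (horb y hy).1)
  obtain ⟨z, ⟨g, hg⟩, g', hg'⟩ := hd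
  refine ⟨g'⁻¹ * g, ?_⟩
  have h1 : g • x = g' • y := by
    have hg1 : g • x = z := hg
    have hg2 : g' • y = z := hg'
    rw [hg1, hg2]
  rw [mul_smul, h1, inv_smul_smul]

private theorem D_comap (hCTD : T_CTD) {M : Type} (U : RU M) {H L : Type} [Group H] [Group L]
    [Cod M H] [DG U H] (p : H →* L) (hp : Function.Surjective p) (hk : (p.ker : Set H).Finite)
    (U1 : Subgroup L) (h1 : ∀ g, g ∈ U1 ↔ ∀ u ∈ U1, g * u = u * g) :
    U.D ((U1.comap p : Subgroup H) : Set H) := by
  have h := (hCTD U (Γ := H)).2.1 p.ker (D_finite hk) ((U1.comap p : Subgroup H) : Set H)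
  have he : {g : H | ∀ x ∈ ((U1.comap p : Subgroup H) : Set H), g * x * g⁻¹ * x⁻¹ ∈ p.ker} =
      ((U1.comap p : Subgroup H) : Set H) := by
    ext g
    constructor
    · intro hg
      have hg1 : p g ∈ U1 := by
        rw [h1]
        intro u hu
        obtain ⟨x, rfl⟩ := hp u
        have h2 := hg x hu
        rw [MonoidHom.mem_ker, map_mul, map_mul, map_mul, map_inv, map_inv] at h2
        have h3 := mul_inv_eq_one.1 h2
        exact mul_inv_eq_iff_eq_mul.1 h3
      exact hg1
    · intro hg x hx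
      have hg1 : p g ∈ U1 := hg
      have h2 := (h1 _).1 hg1 (p x) hx
      rw [MonoidHom.mem_ker, map_mul, map_mul, map_mul, map_inv, map_inv, h2,
        mul_inv_cancel_right, mul_inv_cancel]
  rw [he] at h
  exact h

private theorem not_fixed {G' S' F : Type} [Group G'] [MulAction G' S'] [Field F] (n : ℕ)
    (hn : 1 ≤ n) (hN : NatAct G' S' F n) (s : S') : ∃ g : G', g • s ≠ s := by
  classical
  obtain ⟨φ, b, hb⟩ := hN
  by_contra hcon
  push Not at hcon
  -- a vector of the point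
  obtain ⟨v, hv, hvs⟩ : ∃ (v : Fin (n + 1) → F) (hv : v ≠ 0), b s = Projectivization.mk F v hv :=
    ⟨(b s).rep, (b s).rep_nonzero, ((b s).mk_rep).symm⟩
  obtain ⟨i, hi⟩ : ∃ i, v i ≠ 0 := by
    by_contra h
    push Not at h
    exact hv (funext h)
  obtain ⟨j, hj⟩ : ∃ j : Fin (n + 1), j ≠ i := by
    have : Nontrivial (Fin (n + 1)) := Fin.nontrivial_iff_two_le.2 (by omega)
    exact exists_ne i
  let A : Matrix.SpecialLinearGroup (Fin (n + 1)) F :=
    ⟨Matrix.transvection j i 1, Matrix.det_transvection_of_ne j i hj 1⟩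
  have hAv : A.val.mulVec v = v + Pi.single j (v i) := by
    show (Matrix.transvection j i (1 : F)).mulVec v = _
    rw [Matrix.transvection, Matrix.add_mulVec, Matrix.one_mulVec]
    congr 1
    funext k
    rw [Matrix.mulVec, dotProduct]
    by_cases hk : k = j
    · subst hk
      rw [Finset.sum_eq_single i]
      · simp
      · intro l _ hl
        rw [Matrix.single_apply_of_ne]
        · rw [zero_mul]
        · intro h; exact hl h.2.symm
      · intro h; exact absurd (Finset.mem_univ i) h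
    · rw [Pi.single_eq_of_ne hk]
      refine Finset.sum_eq_zero fun l _ => ?_
      rw [Matrix.single_apply_of_ne]
      · rw [zero_mul]
      · intro h; exact hk h.1.symm
  have hw : A.val.mulVec v ≠ 0 := by
    rw [hAv]
    intro h
    have h1 := congrFun h i
    rw [Pi.add_apply, Pi.single_eq_of_ne (Ne.symm hj), add_zero, Pi.zero_apply] at h1
    exact hi h1
  have h1 := hb (φ.symm (QuotientGroup.mk A)) A (φ.apply_symm_apply _) s v hv hw hvs
  rw [hcon, hvs, Projectivization.mk_eq_mk_iff'] at h1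
  obtain ⟨a, ha⟩ := h1
  have h2 := congrFun ha i
  have h3 := congrFun ha j
  rw [hAv, Pi.smul_apply, Pi.add_apply, Pi.single_eq_of_ne (Ne.symm hj), add_zero,
    smul_eq_mul] at h2
  rw [hAv, Pi.smul_apply, Pi.add_apply, Pi.single_eq_same, smul_eq_mul] at h3
  have ha1 : a = 1 := by
    have : (a - 1) * v i = 0 := by rw [sub_mul, one_mul, h2, sub_self]
    rcases mul_eq_zero.1 this with h | h
    · exact sub_eq_zero.1 h
    · exact absurd h hi
  rw [ha1, one_mul] at h3
  exact hi (by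
    have := h3
    have h4 : v j + v i = v j + 0 := by rw [h3, add_zero]
    exact add_left_cancel h4)

theorem pf_MC1 (hKUN : T_KUN) (hAL1 : T_AL1) (hCTD : T_CTD) (hCCE : T_CCE) (hMNC : T_MNC)
    (hADT : T_ADT) (hORB : T_ORB) (_hHMI : T_HMI) : T_MC1 := by
  intro M U H V _ _ _ _ _ _ _ _ hconn hmin hY G' S' F _ _ _ _ n hn hN p hp hk x q hq hfin
  have hinf : Infinite V := by
    have h := hmin.2.2.1
    rw [AddSubgroup.coe_top] at h
    exact Set.infinite_univ_iff.1 h
  -- `x` is not fixed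
  obtain ⟨g0, hg0⟩ := not_fixed n hn hN (q x)
  obtain ⟨h0, rfl⟩ := hp g0
  have hx0 : h0 • x ≠ x := by
    intro h
    refine hg0 ?_
    rw [← hq h0 x (MulAction.mem_orbit_self _), h]
  have hxZ : x ∉ Zs H V := fun h => hx0 (h h0)
  obtain ⟨hZf, -, horb⟩ := orbits hMNC hADT hORB U hmin hY ⟨h0, x, hx0⟩
  obtain ⟨s, U1, h1, h2, -, h4⟩ := hAL1 n hn hN
  have hD := D_comap hCTD U p hp hk U1 h1
  have hW := hKUN U (H := H) (V := V) p hp hk U1 hD
    (fun a ha b hb => (h1 a).1 ha b hb) h2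
  have hcc := hCCE U (U1.comap p) hD
  refine hW ((hZf.union (hfin s)).subset ?_)
  intro y hy
  by_cases hyZ : y ∈ Zs H V
  · exact Or.inl hyZ
  · refine Or.inr ?_
    obtain ⟨h, hh⟩ := horb x y hxZ hyZ
    have hyo : y ∈ MulAction.orbit H x := ⟨h, hh.symm⟩
    refine ⟨hyo, ?_⟩
    by_contra hqs
    have h5 := h4 (q y) hqs
    have h6 : cc U (U1.comap p) ≤ (MulAction.stabilizer G' (q y)).comap p := by
      intro g hg
      have h7 := hy g hg
      have h8 := hq g y hyo
      rw [h7] at h8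
      exact h8.symm
    have h7 : ((MulAction.stabilizer G' (q y)).comap p).relIndex (U1.comap p) = 0 := by
      rw [Subgroup.relIndex_comap, Subgroup.map_comap_eq_self_of_surjective hp]
      exact h5
    have h8 := Subgroup.relIndex_dvd_of_le_left (U1.comap p) h6
    rw [h7] at h8
    exact hcc.2.2.2.1 (Nat.eq_zero_of_zero_dvd h8)

theorem pf_MC2 (hKUN : T_KUN) (hAL2 : T_AL2) (hCTD : T_CTD) (hCCE : T_CCE) (hMNC : T_MNC)
    (hADT : T_ADT) (hORB : T_ORB) (_hFCJ : T_FCJ) : T_MC2 := by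
  intro M U H V _ _ _ _ _ _ _ _ hconn hmin hY L _ hL p hp hk h00 v00
  have RA := Pool.Agent.H77.BCP.a_RKA U
  have GA : GRA U := Pool.Agent.H77.BCP.a_GRA U
  by_contra hne
  have hinf : Infinite V := by
    have h := hmin.2.2.1
    rw [AddSubgroup.coe_top] at h
    exact Set.infinite_univ_iff.1 h
  obtain ⟨hZf, hst, horb⟩ := orbits hMNC hADT hORB U hmin hY ⟨h00, v00, hne⟩
  obtain ⟨U1, h1, h2, hU1, h4, h5, h6⟩ := hAL2 hL
  have hD := D_comap hCTD U p hp hk U1 h1
  have hW := hKUN U (H := H) (V := V) p hp hk U1 hD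
    (fun a ha b hb => (h1 a).1 ha b hb) h2
  obtain ⟨-, hc2, -, hc4, -, hc6⟩ := hCCE U (Γ := H) (U1.comap p) hD
  set X : Subgroup H := U1.comap p with hX
  set Uh : Subgroup H := cc U X with hUh
  obtain ⟨y0, hy0, hy0Z⟩ := (hW.sdiff hZf).nonempty
  -- the normalizer
  set B : Subgroup H := Subgroup.normalizer (X : Set H) with hB
  have hDB : U.D (B : Set H) := (hCTD U (Γ := H)).2.2.1 X hD
  have hmB : ∀ b, b ∈ B ↔ ∀ w, w ∈ U1 ↔ p b * w * (p b)⁻¹ ∈ U1 := by
    intro b
    rw [hB, Subgroup.mem_normalizer_iff]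
    constructor
    · intro h w
      obtain ⟨w', rfl⟩ := hp w
      have h' := h w'
      have e : p (b * w' * b⁻¹) = p b * p w' * (p b)⁻¹ := by
        rw [map_mul, map_mul, map_inv]
      rw [← e]
      exact h'
    · intro h w
      have h' := h (p w)
      have e : p (b * w * b⁻¹) = p b * p w * (p b)⁻¹ := by
        rw [map_mul, map_mul, map_inv]
      rw [← e] at h'
      exact h'
  have hBT : B ≠ ⊤ := by
    intro he
    obtain ⟨h, hh⟩ := h6
    obtain ⟨h', rfl⟩ := hp h
    exact hh ((hmB h').1 (by rw [he]; trivial))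
  have hBv := hY B hDB hBT
  -- (1)
  have hmap : U1 ≤ Uh.map p := by
    have hr : (Uh.map p).relIndex U1 ≠ 0 := by
      have e1 : ((Uh.map p).comap p).relIndex X = (Uh.map p).relIndex U1 := by
        rw [Subgroup.relIndex_comap, hX, Subgroup.map_comap_eq_self_of_surjective hp]
      rw [← e1]
      intro h0
      have hd := Subgroup.relIndex_dvd_of_le_left X (Subgroup.le_comap_map p Uh)
      rw [h0] at hd
      exact hc4 (Nat.eq_zero_of_zero_dvd hd)
    obtain ⟨u', hu', hu1⟩ : ∃ u' ∈ Uh, p u' ≠ 1 := by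
      by_contra hcon
      push Not at hcon
      have hbot : Uh.map p = ⊥ := by
        rw [eq_bot_iff]
        rintro _ ⟨u', hu', rfl⟩
        exact Subgroup.mem_bot.2 (hcon u' hu')
      rw [hbot, Subgroup.relIndex_bot_left] at hr
      have hi : Infinite U1 := hU1.to_subtype
      exact hr Nat.card_eq_zero_of_infinite
    intro v hv
    by_cases hv1 : v = 1
    · rw [hv1]; exact (Uh.map p).one_mem
    obtain ⟨d, hd1, hd2⟩ := h4 (p u') (hc2 hu') hu1 v hv hv1
    obtain ⟨d', rfl⟩ := hp d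
    have hd'B : d' ∈ B := (hmB d').2 hd1
    have hd'X : ∀ w, w ∈ X ↔ d' * w * d'⁻¹ ∈ X := by
      rw [hB, Subgroup.mem_normalizer_iff] at hd'B
      exact hd'B
    have h7 := (hc6 d' hd'X u').1 hu'
    refine ⟨d' * u' * d'⁻¹, h7, ?_⟩
    rw [map_mul, map_mul, map_inv]
    exact hd2
  -- (2)
  have hgen : ∀ (h : H) (Y : Subgroup H), h ∉ B → U.D (Y : Set H) → Uh ≤ Y →
      (∀ g ∈ Uh, h * g * h⁻¹ ∈ Y) → Y = ⊤ := by
    intro h Y hh hDY hY1 hY2
    have h7 : Y.map p = ⊤ := by
      refine h5 (p h) (fun hc => hh ((hmB h).2 hc)) (Y.map p)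
        (hmap.trans (Subgroup.map_mono hY1)) ?_
      intro w hw
      obtain ⟨g, hg, rfl⟩ := hmap hw
      refine ⟨h * g * h⁻¹, hY2 g hg, ?_⟩
      rw [map_mul, map_mul, map_inv]
    have h8 : Y ⊔ p.ker = ⊤ := by
      rw [← Subgroup.comap_map_eq, h7, Subgroup.comap_top]
    have h9 : Y.relIndex ⊤ ≠ 0 := by
      rw [Subgroup.relIndex_top_right]
      have hfk : Finite p.ker := hk.to_subtype
      have hfin : Finite (H ⧸ Y) := by
        refine Finite.of_surjective (fun k : p.ker => (QuotientGroup.mk k.1 : H ⧸ Y)) ?_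
        intro z
        obtain ⟨h, rfl⟩ := QuotientGroup.mk_surjective z
        have hh : h⁻¹ ∈ Y ⊔ p.ker := by rw [h8]; trivial
        obtain ⟨y, hy, k, hk', e⟩ := Subgroup.mem_sup_of_normal_right.1 hh
        refine ⟨⟨k⁻¹, p.ker.inv_mem hk'⟩, ?_⟩
        rw [QuotientGroup.eq]
        have e2 : k⁻¹⁻¹ * h = y⁻¹ := by
          rw [inv_inv, eq_inv_iff_mul_eq_one]
          have e3 : h = k⁻¹ * y⁻¹ := by rw [← mul_inv_rev, e, inv_inv]
          rw [e3]; group
        rw [e2]
        exact Y.inv_mem hy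
      exact Subgroup.index_ne_zero_of_finite
    refine hconn.2 Y le_top hDY ?_
    exact (GA ⊤ Y hconn.1 hDY le_top).1 h9
  -- (3)
  have hy0T : MulAction.stabilizer H y0 ≠ ⊤ := by
    intro he
    refine hy0Z fun h => ?_
    have h7 : h ∈ MulAction.stabilizer H y0 := by rw [he]; trivial
    exact h7
  have hUs : Uh ≤ MulAction.stabilizer H y0 := fun g hg => hy0 g hg
  have hsB : MulAction.stabilizer H y0 ≤ B := by
    intro h hh
    by_contra hhB
    refine hy0T (hgen h _ hhB (D_stab (U := U) y0) hUs fun g hg => ?_)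
    exact (MulAction.stabilizer H y0).mul_mem ((MulAction.stabilizer H y0).mul_mem hh (hUs hg))
      ((MulAction.stabilizer H y0).inv_mem hh)
  have hfinB : {y : V | ∃ g ∈ B, y = g • y0}.Finite := by
    have h7 := hORB U (G := H) (S := V) B y0 hDB
    rw [inf_eq_right.2 hsB] at h7
    have h8 := hst y0 hy0Z
    have h9 : U.R {y : V | ∃ g ∈ B, y = g • y0} = 0 := by omega
    have hDo : U.D {y : V | ∃ g ∈ B, y = g • y0} := by
      have : U.D {y : V | ∃ g : H, g ∈ B ∧ y = g • y0} :=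
        D_exists (p := fun (y : V) (g : H) => g ∈ B ∧ y = g • y0)
          (D_and (D_subst (p := fun g => g ∈ B) hDB DFn_snd)
            (D_eqf DFn_fst (DFn_act DFn_snd (DFn_const _))))
      exact this
    exact (RA.fin hDo ⟨y0, 1, B.one_mem, (one_smul H y0).symm⟩).1 h9
  refine hW ((hZf.union hfinB).subset ?_)
  intro y hy
  by_cases hyZ : y ∈ Zs H V
  · exact Or.inl hyZ
  · refine Or.inr ?_
    obtain ⟨h, hh⟩ := horb y0 y hy0Z hyZ
    refine ⟨h, ?_, hh⟩
    by_contra hhB
    have hhB' : h⁻¹ ∉ B := fun hc => hhB (by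
      have := B.inv_mem hc
      rw [inv_inv] at this
      exact this)
    refine hy0T (hgen h⁻¹ _ hhB' (D_stab (U := U) y0) hUs fun g hg => ?_)
    show (h⁻¹ * g * h⁻¹⁻¹) • y0 = y0
    have h7 : g • y = y := hy g hg
    rw [hh] at h7
    rw [inv_inv, mul_smul, mul_smul, h7, inv_smul_smul]

end Pool.Agent.H8.KGR
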